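import Pool.Agent.W558.S.Stms

set_option autoImplicit false
set_option linter.unusedVariables false
set_option linter.unusedSectionVars false

universe u

open scoped IntermediateField.algebraAdjoinAdjoin

open Polynomial Pool.Agent.W558

namespace Pool.Agent.W498.Tor

/-- The function `g` is a monomial in the local equations, up to units. -/
def F1 {k K : Type u} [Field k] [Field K] [Algebra k K] {R0 R : Subalgebra k K} {T I : Type}
    [Fintype I] (M : LM R0 R T I) (g : K) (γ : I → ℤ) : Prop :=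
  ∀ t, ∃ w, w ≠ 0 ∧ w ∈ M.A t ∧ w⁻¹ ∈ M.A t ∧ g = w * ∏ i, M.x t i ^ γ i

section map

variable {k E K : Type u} [Field k] [Field E] [Field K] [Algebra k E] [Algebra k K]
  [Algebra E K] [IsScalarTower k E K] {T I : Type}

/-- The embedding of the function field. -/
noncomputable def em (k E K : Type u) [Field k] [Field E] [Field K] [Algebra k E] [Algebra k K]
    [Algebra E K] [IsScalarTower k E K] : E →ₐ[k] K := IsScalarTower.toAlgHom k E K

lemma em_apply (x : E) : em k E K x = algebraMap E K x := rfl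

lemma em_inj : Function.Injective (em k E K) := (algebraMap E K).injective

/-- The isomorphism of a chart with its image. -/
noncomputable def eqv (A : Subalgebra k E) : A ≃ₐ[k] A.map (em k E K) :=
  A.equivMapOfInjective (em k E K) em_inj

lemma coe_eqv (A : Subalgebra k E) (a : A) : ((eqv (K := K) A a : A.map (em k E K)) : K) =
    em k E K a := rfl

lemma snc_map {A : Subalgebra k E} {x : I → E} (h : SNC A x) (hx : ∀ i, x i ∈ A) :
    SNC (A.map (em k E K)) (fun i => em k E K (x i)) := by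
  intro κ _ _ φ i hi hφ
  let e := eqv (K := K) A
  let φ0 : A →ₐ[k] κ := φ.comp e.toAlgHom
  have h0 : ∀ i (hi : em k E K (x i) ∈ A.map (em k E K)), e ⟨x i, hx i⟩ = ⟨em k E K (x i), hi⟩ :=
    fun i hi => Subtype.ext (coe_eqv A _)
  have h1 : φ0 ⟨x i, hx i⟩ = 0 := by
    change φ (e ⟨x i, hx i⟩) = 0
    rw [h0 i hi]
    exact hφ
  obtain ⟨D, hD, hD'⟩ := h κ φ0 i (hx i) h1
  have h2 : ∀ a, (φ0.comp e.symm.toAlgHom) a = φ a := by
    intro a
    change φ (e (e.symm a)) = φ a
    rw [e.apply_symm_apply]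
  have h3 : ∀ i (hi : em k E K (x i) ∈ A.map (em k E K)),
      e.symm ⟨em k E K (x i), hi⟩ = ⟨x i, hx i⟩ := by
    intro i hi
    rw [← h0 i hi, e.symm_apply_apply]
  refine ⟨(D.restr e.symm.toAlgHom).cast h2, ?_, ?_⟩
  · rw [TV.cast_D, TV.restr_D]
    change D.D (e.symm ⟨em k E K (x i), hi⟩) = 1
    rw [h3, hD]
  · intro j hj hji hφj
    rw [TV.cast_D, TV.restr_D]
    change D.D (e.symm ⟨em k E K (x j), hj⟩) = 0
    rw [h3]
    refine hD' j (hx j) hji ?_
    change φ (e ⟨x j, hx j⟩) = 0
    rw [h0 j hj]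
    exact hφj

/-- The image of a model. -/
noncomputable def mapLM (M : LM (⊥ : Subalgebra k E) ⊤ T I) : LM (⊥ : Subalgebra k K) ⊤ T I where
  A t := (M.A t).map (em k E K)
  H t := em k E K (M.H t)
  x t i := em k E K (M.x t i)
  sm t := by
    have := M.sm t
    exact Algebra.Smooth.of_equiv (eqv (K := K) (M.A t))
  base t := bot_le
  H0 t := by
    rw [map_ne_zero_iff _ em_inj]
    exact M.H0 t
  HR t := trivial
  rt t t' := ⟨_, M.rt t t', by
    change em k E K (M.H t' / M.H t) = _
    rw [map_div₀]⟩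
  gl := by
    rintro t t' _ ⟨f, hf, rfl⟩
    obtain ⟨n, hn⟩ := M.gl t t' f hf
    refine ⟨n, _, hn, ?_⟩
    change em k E K _ = _ * em k E K f
    rw [map_mul, map_pow, map_div₀]
  dn := fun t f hf => ⟨0, trivial⟩
  cv := by
    intro V hV
    obtain ⟨t, ht⟩ := M.cv (V.comap (algebraMap E K)) (by
      intro a ha
      rw [Algebra.mem_bot] at ha
      obtain ⟨c, rfl⟩ := ha
      rw [ValuationSubring.mem_comap, ← IsScalarTower.algebraMap_apply]
      exact hV _ (Subalgebra.algebraMap_mem _ c))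
    refine ⟨t, ?_⟩
    rintro _ ⟨f, hf, rfl⟩
    exact ht f hf
  xA t i := ⟨_, M.xA t i, rfl⟩
  x0 t i := by
    rw [map_ne_zero_iff _ em_inj]
    exact M.x0 t i
  gi := by
    intro t t' i
    obtain ⟨n, hn⟩ := M.gi t t' i
    refine ⟨n, _, hn, ?_⟩
    change em k E K _ = _
    rw [map_mul, map_pow, map_div₀, map_div₀]
  snc t := snc_map (M.snc t) (M.xA t)

lemma f1_map [Fintype I] {M : LM (⊥ : Subalgebra k E) ⊤ T I} {g : E} {γ : I → ℤ}
    (h : F1 M g γ) : F1 (mapLM (K := K) M) (algebraMap E K g) γ := by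
  intro t
  obtain ⟨w, hw0, hw, hw', h1⟩ := h t
  refine ⟨em k E K w, (map_ne_zero_iff _ em_inj).2 hw0, ⟨w, hw, rfl⟩,
    ⟨w⁻¹, hw', map_inv₀ (em k E K) w⟩, ?_⟩
  rw [h1]
  change em k E K _ = _
  rw [map_mul, map_prod]
  congr 1
  refine Finset.prod_congr rfl fun i _ => ?_
  rw [map_zpow₀]
  rfl

end map

section step

variable {k K : Type u} [Field k] [Field K] [Algebra k K] {T I : Type}

/-- The coordinate on the two charts of the projective line. -/
noncomputable def zz (z : K) (b : Bool) : K := if b then z else z⁻¹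

/-- The homogeneous coordinates of the projective line. -/
noncomputable def zf (z : K) (b : Bool) : K := if b then 1 else z

lemma zz_ne {z : K} (hz : z ≠ 0) (b : Bool) : zz z b ≠ 0 := by
  cases b
  · exact inv_ne_zero hz
  · exact hz

lemma zf_ne {z : K} (hz : z ≠ 0) (b : Bool) : zf z b ≠ 0 := by
  cases b
  · exact hz
  · exact one_ne_zero

lemma zf_div {z : K} (hz : z ≠ 0) {b b' : Bool} (h : b ≠ b') : zf z b' / zf z b = zz z b := by
  cases b <;> cases b' <;> simp_all [zf, zz]

lemma zz_mul {z : K} (hz : z ≠ 0) {b b' : Bool} (h : b ≠ b') : zz z b * zz z b' = 1 := by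
  cases b <;> cases b' <;> simp_all [zz]

/-- The local equations on the product with the projective line. -/
noncomputable def xx (x : I → K) (z : K) (b : Bool) : I ⊕ Bool → K :=
  Sum.elim x (fun c => if b = c then zz z b else 1)

/-- `y` is transcendental over `A`. -/
def Tr (A : Subalgebra k K) (y : K) : Prop := ∀ P : (A)[X], evA A y P = 0 → P = 0

lemma Tr.zz {A : Subalgebra k K} {z : K} (hz : z ≠ 0) (h : Tr A z) (b : Bool) :
    Tr A (zz z b) := by
  cases b
  · intro P hP
    let _ : Invertible z := invertibleOfNonzero hz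
    have h1 : evA A z P.reverse = 0 := by
      let _ : Invertible z⁻¹ := invertibleOfNonzero (inv_ne_zero hz)
      have h2 := (Polynomial.eval₂_reverse_eq_zero_iff (algebraMap A K) z⁻¹ P).2 hP
      rw [invOf_eq_inv, inv_inv] at h2
      exact h2
    have h3 := h _ h1
    rwa [Polynomial.reverse_eq_zero] at h3
  · exact h

/-- The polynomial ring. -/
noncomputable def pe {A : Subalgebra k K} {y : K} (h : Tr A y) : (A)[X] ≃ₐ[k] adj A y :=
  AlgEquiv.ofBijective (evA' A y) ⟨by
    rw [injective_iff_map_eq_zero]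
    intro P hP
    exact h P (congrArg Subtype.val hP), evA'_surj A y⟩

lemma smooth_pe {A : Subalgebra k K} {y : K} (h : Tr A y) [Algebra.Smooth k A] :
    Algebra.Smooth k (adj A y) := by
  have h0 : Algebra.Smooth A ((A)[X]) := ⟨inferInstance, inferInstance⟩
  have h1 : Algebra.Smooth k ((A)[X]) := Algebra.Smooth.comp k A (A)[X]
  exact Algebra.Smooth.of_equiv (pe h)

lemma ext_pe {A : Subalgebra k K} {y : K} (h : Tr A y) {κ : Type u}
    [Field κ] [Algebra k κ] (φ : adj A y →ₐ[k] κ) (φ0 : A →ₐ[k] κ)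
    (hφ0 : ∀ a : A, φ ⟨a, le_adj A _ a.2⟩ = φ0 a) (D : TV φ0) (c : κ) :
    ∃ E : TV φ, (∀ (a : K) (ha : a ∈ A) (ha' : a ∈ adj A y), E.D ⟨a, ha'⟩ = D.D ⟨a, ha⟩) ∧
      ∀ hy, E.D ⟨y, hy⟩ = c := by
  have hC : ∀ a : A, evA' A y (C a) = ⟨a, le_adj A _ a.2⟩ := fun a =>
    Subtype.ext (evA_C A _ a)
  have hX : evA' A y X = ⟨y, self_mem_adj A _⟩ := Subtype.ext (evA_X A _)
  let φ1 : (A)[X] →ₐ[k] κ := φ.comp (evA' A y)
  have hφ1 : ∀ a, φ1 (C a) = φ0 a := by
    intro a
    change φ (evA' A y (C a)) = _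
    rw [hC, hφ0]
  obtain ⟨E, hE⟩ := TV.desc (evA' A y) (evA'_surj A _) φ (fun a => rfl)
    (D.poly φ1 hφ1 c) (by
      intro P hP
      have : P = 0 := h P (congrArg Subtype.val hP)
      rw [this, map_zero])
  refine ⟨E, ?_, ?_⟩
  · intro a ha ha'
    have h2 : (⟨a, ha'⟩ : adj A y) = evA' A y (C ⟨a, ha⟩) := (hC ⟨a, ha⟩).symm
    rw [h2, hE, TV.poly_C]
  · intro hy
    have h2 : (⟨y, hy⟩ : adj A y) = evA' A y X := hX.symm
    rw [h2, hE, TV.poly_X]

lemma snc_pe {A : Subalgebra k K} {x : I → K} (hx : ∀ i, x i ∈ A) (hS : SNC A x) {z : K}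
    (hz : z ≠ 0) (b : Bool) (h : Tr A (zz z b)) : SNC (adj A (zz z b)) (xx x z b) := by
  intro κ _ _ φ i hi hφ
  let φ0 : A →ₐ[k] κ := φ.comp (Subalgebra.inclusion (le_adj A (zz z b)))
  have hφ0 : ∀ a : A, φ ⟨a, le_adj A _ a.2⟩ = φ0 a := fun a => rfl
  have φ1 : ∀ (h1 : (1 : K) ∈ adj A (zz z b)), φ ⟨1, h1⟩ ≠ 0 := by
    intro h1 h0
    have : φ 1 = 0 := h0
    rw [map_one] at this
    exact one_ne_zero this
  have φ2 : ∀ c (hc : b ≠ c) (h : xx x z b (Sum.inr c) ∈ adj A (zz z b)),
      φ ⟨xx x z b (Sum.inr c), h⟩ ≠ 0 := by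
    intro c hc h
    have h3 : xx x z b (Sum.inr c) = 1 := if_neg hc
    have h4 : (⟨xx x z b (Sum.inr c), h⟩ : adj A (zz z b)) = ⟨1, h3 ▸ h⟩ := Subtype.ext h3
    rw [h4]
    exact φ1 _
  have e1 : xx x z b (Sum.inr b) = zz z b := if_pos rfl
  rcases i with i | c
  · obtain ⟨D, hD, hD'⟩ := hS κ φ0 i (hx i) hφ
    obtain ⟨E, hE1, hE2⟩ := ext_pe h φ φ0 hφ0 D 0
    refine ⟨E, (hE1 (x i) (hx i) _).trans hD, ?_⟩
    rintro (j | c) hj hne hφj
    · exact (hE1 (x j) (hx j) _).trans (hD' j (hx j) (fun h => hne (by rw [h])) hφj)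
    · by_cases hc : b = c
      · subst hc
        have h5 : (⟨xx x z b (Sum.inr b), hj⟩ : adj A (zz z b)) = ⟨zz z b, e1 ▸ hj⟩ :=
          Subtype.ext e1
        rw [h5]
        exact hE2 _
      · exact absurd hφj (φ2 c hc hj)
  · by_cases hc : b = c
    · subst hc
      obtain ⟨E, hE1, hE2⟩ := ext_pe h φ φ0 hφ0 (TV.zero φ0) 1
      refine ⟨E, ?_, ?_⟩
      · have h5 : (⟨xx x z b (Sum.inr b), hi⟩ : adj A (zz z b)) = ⟨zz z b, e1 ▸ hi⟩ :=
          Subtype.ext e1
        rw [h5]
        exact hE2 _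
      · rintro (j | c) hj hne hφj
        · exact (hE1 (x j) (hx j) _).trans (TV.zero_D _)
        · have hc : b ≠ c := fun h => hne (by rw [h])
          exact absurd hφj (φ2 c hc hj)
    · exact absurd hφ (φ2 c hc hi)

variable (M : LM (⊥ : Subalgebra k K) ⊤ T I)

/-- The product with the projective line. -/
noncomputable def prodLM {z : K} (hz : z ≠ 0) (h : ∀ t, Tr (M.A t) z) :
    LM (⊥ : Subalgebra k K) ⊤ (T × Bool) (I ⊕ Bool) where
  A p := adj (M.A p.1) (zz z p.2)
  H p := M.H p.1 * zf z p.2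
  x p := xx (M.x p.1) z p.2
  sm p := by
    have := M.sm p.1
    exact smooth_pe ((h p.1).zz hz p.2)
  base p := bot_le
  H0 p := mul_ne_zero (M.H0 _) (zf_ne hz _)
  HR p := trivial
  rt := by
    rintro ⟨t, b⟩ ⟨t', b'⟩
    change M.H t' * zf z b' / (M.H t * zf z b) ∈ adj (M.A t) (zz z b)
    rw [mul_div_mul_comm]
    refine Subalgebra.mul_mem _ (le_adj _ _ (M.rt t t')) ?_
    by_cases hb : b = b'
    · subst hb
      rw [div_self (zf_ne hz b)]
      exact Subalgebra.one_mem _
    · rw [zf_div hz hb]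
      exact self_mem_adj _ _
  gl := by
    rintro ⟨t, b⟩ ⟨t', b'⟩ f hf
    have key : zf z b' / zf z b ∈ adj (M.A t) (zz z b) := by
      by_cases hb : b = b'
      · subst hb
        rw [div_self (zf_ne hz b)]
        exact Subalgebra.one_mem _
      · rw [zf_div hz hb]
        exact self_mem_adj _ _
    have key' : zf z b' / zf z b * zz z b' ∈ adj (M.A t) (zz z b) := by
      by_cases hb : b = b'
      · subst hb
        rw [div_self (zf_ne hz b), one_mul]
        exact self_mem_adj _ _
      · rw [zf_div hz hb, zz_mul hz hb]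
        exact Subalgebra.one_mem _
    have hrt : M.H t' * zf z b' / (M.H t * zf z b) ∈ adj (M.A t) (zz z b) := by
      rw [mul_div_mul_comm]
      exact Subalgebra.mul_mem _ (le_adj _ _ (M.rt t t')) key
    change ∃ n : ℕ, (M.H t' * zf z b' / (M.H t * zf z b)) ^ n * f ∈ adj (M.A t) (zz z b)
    refine adj_induction (M.A t') (zz z b')
      (p := fun f => ∃ n : ℕ, (M.H t' * zf z b' / (M.H t * zf z b)) ^ n * f ∈
        adj (M.A t) (zz z b)) ?_ ?_ ?_ f hf
    · intro a ha
      obtain ⟨n, hn⟩ := M.gl t t' a ha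
      refine ⟨n, ?_⟩
      have h1 : (M.H t' * zf z b' / (M.H t * zf z b)) ^ n * a =
          (M.H t' / M.H t) ^ n * a * (zf z b' / zf z b) ^ n := by
        rw [mul_div_mul_comm, mul_pow]; ring
      rw [h1]
      exact Subalgebra.mul_mem _ (le_adj _ _ hn) (Subalgebra.pow_mem _ key n)
    · rintro a c ⟨n, hn⟩ ⟨m, hm⟩
      refine ⟨n + m, ?_⟩
      have h1 : (M.H t' * zf z b' / (M.H t * zf z b)) ^ (n + m) * (a + c) =
          (M.H t' * zf z b' / (M.H t * zf z b)) ^ m *
            ((M.H t' * zf z b' / (M.H t * zf z b)) ^ n * a) +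
          (M.H t' * zf z b' / (M.H t * zf z b)) ^ n *
            ((M.H t' * zf z b' / (M.H t * zf z b)) ^ m * c) := by ring
      rw [h1]
      exact Subalgebra.add_mem _ (Subalgebra.mul_mem _ (Subalgebra.pow_mem _ hrt m) hn)
        (Subalgebra.mul_mem _ (Subalgebra.pow_mem _ hrt n) hm)
    · rintro a ⟨n, hn⟩
      refine ⟨n + 1, ?_⟩
      have h1 : (M.H t' * zf z b' / (M.H t * zf z b)) ^ (n + 1) * (a * zz z b') =
          ((M.H t' * zf z b' / (M.H t * zf z b)) ^ n * a) *
            ((M.H t' / M.H t) * (zf z b' / zf z b * zz z b')) := by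
        rw [pow_succ, mul_div_mul_comm]; ring
      rw [h1]
      exact Subalgebra.mul_mem _ hn (Subalgebra.mul_mem _ (le_adj _ _ (M.rt t t')) key')
  dn := fun p f hf => ⟨0, trivial⟩
  cv := by
    intro V hV
    obtain ⟨t, ht⟩ := M.cv V hV
    have h1 : ∀ b : Bool, zz z b ∈ V → ∀ f ∈ adj (M.A t) (zz z b), f ∈ V := by
      intro b hb
      exact adj_induction (M.A t) (zz z b) ht (fun a b ha hb => V.add_mem _ _ ha hb)
        (fun a ha => V.mul_mem _ _ ha hb)
    rcases V.mem_or_inv_mem z with h | h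
    · exact ⟨(t, true), h1 true h⟩
    · exact ⟨(t, false), h1 false h⟩
  xA := by
    rintro ⟨t, b⟩ (i | c)
    · exact le_adj _ _ (M.xA t i)
    · change (if b = c then zz z b else 1) ∈ adj (M.A t) (zz z b)
      split_ifs
      · exact self_mem_adj _ _
      · exact Subalgebra.one_mem _
  x0 := by
    rintro ⟨t, b⟩ (i | c)
    · exact M.x0 t i
    · change (if b = c then zz z b else 1) ≠ 0
      split_ifs
      · exact zz_ne hz b
      · exact one_ne_zero
  gi := by
    rintro ⟨t, b⟩ ⟨t', b'⟩ i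
    have key : zf z b' / zf z b ∈ adj (M.A t) (zz z b) := by
      by_cases hb : b = b'
      · subst hb
        rw [div_self (zf_ne hz b)]
        exact Subalgebra.one_mem _
      · rw [zf_div hz hb]
        exact self_mem_adj _ _
    rcases i with i | c
    · obtain ⟨n, hn⟩ := M.gi t t' i
      refine ⟨n, ?_⟩
      change (M.H t' * zf z b' / (M.H t * zf z b)) ^ n * (M.x t' i / M.x t i) ∈
        adj (M.A t) (zz z b)
      have h1 : (M.H t' * zf z b' / (M.H t * zf z b)) ^ n * (M.x t' i / M.x t i) =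
          (M.H t' / M.H t) ^ n * (M.x t' i / M.x t i) * (zf z b' / zf z b) ^ n := by
        rw [mul_div_mul_comm, mul_pow]; ring
      rw [h1]
      exact Subalgebra.mul_mem _ (le_adj _ _ hn) (Subalgebra.pow_mem _ key n)
    · refine ⟨1, ?_⟩
      change (M.H t' * zf z b' / (M.H t * zf z b)) ^ 1 *
        ((if b' = c then zz z b' else 1) / (if b = c then zz z b else 1)) ∈
        adj (M.A t) (zz z b)
      rw [pow_one, mul_div_mul_comm, mul_assoc]
      refine Subalgebra.mul_mem _ (le_adj _ _ (M.rt t t')) ?_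
      by_cases hb : b = b'
      · subst hb
        rw [div_self (zf_ne hz b), one_mul]
        have h2 : (if b = c then zz z b else 1) / (if b = c then zz z b else 1) = (1 : K) := by
          apply div_self
          split_ifs
          · exact zz_ne hz b
          · exact one_ne_zero
        rw [h2]
        exact Subalgebra.one_mem _
      · rw [zf_div hz hb]
        by_cases hc : b = c
        · have hc' : b' ≠ c := fun h => hb (by rw [hc, h])
          rw [if_pos hc, if_neg hc', mul_one_div, div_self (zz_ne hz b)]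
          exact Subalgebra.one_mem _
        · have hc' : b' = c := by
            cases b <;> cases b' <;> cases c <;> simp_all
          rw [if_neg hc, if_pos hc', div_one, zz_mul hz hb]
          exact Subalgebra.one_mem _
  snc p := snc_pe (M.xA p.1) (M.snc p.1) hz p.2 ((h p.1).zz hz p.2)

lemma f1_prod [Fintype I] {z : K} (hz : z ≠ 0) (h : ∀ t, Tr (M.A t) z) {g : K} {γ : I → ℤ}
    (hg : F1 M g γ) : F1 (prodLM M hz h) g (Sum.elim γ 0) := by
  rintro ⟨t, b⟩
  obtain ⟨w, hw0, hw, hw', h1⟩ := hg t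
  refine ⟨w, hw0, le_adj _ _ hw, le_adj _ _ hw', ?_⟩
  rw [h1, Fintype.prod_sum_type]
  congr 1
  simp only [Sum.elim_inl, Sum.elim_inr, Pi.zero_apply, zpow_zero, Finset.prod_const_one, mul_one]
  rfl

lemma f1_self [Fintype I] {z : K} (hz : z ≠ 0) (h : ∀ t, Tr (M.A t) z) :
    F1 (prodLM M hz h) z (Sum.elim 0 (fun c => if c then 1 else -1)) := by
  rintro ⟨t, b⟩
  refine ⟨1, one_ne_zero, Subalgebra.one_mem _, by rw [inv_one]; exact Subalgebra.one_mem _, ?_⟩
  rw [Fintype.prod_sum_type, one_mul]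
  simp only [Sum.elim_inl, Sum.elim_inr, Pi.zero_apply, zpow_zero, Finset.prod_const_one, one_mul,
    Fintype.prod_bool]
  change z = (if b = true then zz z b else 1) ^ _ * (if b = false then zz z b else 1) ^ _
  cases b
  · simp [zz]
  · simp [zz]

end step

/-- The main statement, with control of the charts. -/
theorem main_aux {k E K : Type u} [Field k] [Field E] [Field K] [Algebra k E] [Algebra k K]
    [Algebra E K] [IsScalarTower k E K] {T I G : Type} [Finite T] [Fintype I]
    (M : LM (⊥ : Subalgebra k E) ⊤ T I) (h : G → E) (Γ : G → I → ℤ) (hF : Fn M h Γ) :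
    ∀ (r : ℕ) (z : Fin r → K), AlgebraicIndependent E z →
    ∃ (T' I' : Type) (_ : Finite T') (_ : Fintype I') (M' : LM (⊥ : Subalgebra k K) ⊤ T' I'),
      (∀ t, ∀ f ∈ M'.A t, f ∈ IntermediateField.adjoin E (Set.range z)) ∧
      (∀ b, ∃ γ, F1 M' (algebraMap E K (h b)) γ) ∧ ∀ i, ∃ γ, F1 M' (z i) γ := by
  intro r
  induction r with
  | zero =>
    intro z hz
    refine ⟨T, I, inferInstance, inferInstance, mapLM M, ?_, ?_, fun i => i.elim0⟩
    · rintro t _ ⟨f, hf, rfl⟩
      exact IntermediateField.algebraMap_mem _ f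
    · intro b
      exact ⟨Γ b, f1_map (fun t => hF b t)⟩
  | succ r ih =>
    intro z hz
    have hz' : AlgebraicIndependent E (z ∘ Fin.castSucc) :=
      hz.comp _ (Fin.castSucc_injective r)
    obtain ⟨T', I', _, _, M', h1, h2, h3⟩ := ih (z ∘ Fin.castSucc) hz'
    let S : Set K := Set.range (z ∘ Fin.castSucc)
    have hS : S = z '' (Set.range Fin.castSucc) := Set.range_comp _ _
    have htr : Transcendental (Algebra.adjoin E S) (z (Fin.last r)) := by
      have h4 : Fin.last r ∉ Set.range (Fin.castSucc : Fin r → Fin (r + 1)) := by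
        rintro ⟨i, hi⟩
        exact (Fin.castSucc_lt_last i).ne hi
      have h5 := hz.transcendental_adjoin h4
      rw [hS]
      exact h5
    have htr' : Transcendental (IntermediateField.adjoin E S) (z (Fin.last r)) := by
      intro h4
      exact htr ((IsFractionRing.isAlgebraic_iff (Algebra.adjoin E S)
        (IntermediateField.adjoin E S) K).2 h4)
    have hz0 : z (Fin.last r) ≠ 0 := by
      intro h0
      apply htr
      rw [h0]
      exact isAlgebraic_zero
    have hTr : ∀ t, Tr (M'.A t) (z (Fin.last r)) := by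
      intro t P hP
      let j : M'.A t →+* IntermediateField.adjoin E S :=
        { toFun := fun a => ⟨a, h1 t a a.2⟩
          map_one' := rfl
          map_mul' := fun a b => rfl
          map_zero' := rfl
          map_add' := fun a b => rfl }
      have hj : Function.Injective j := fun a b hab =>
        Subtype.ext (congrArg (fun x : IntermediateField.adjoin E S => (x : K)) hab)
      have h4 : aeval (z (Fin.last r)) (P.map j) = 0 := by
        rw [aeval_def, eval₂_map]
        exact hP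
      have h5 := transcendental_iff.1 htr' _ h4
      exact (Polynomial.map_eq_zero_iff hj).1 h5
    refine ⟨T' × Bool, I' ⊕ Bool, inferInstance, inferInstance, prodLM M' hz0 hTr, ?_, ?_, ?_⟩
    · rintro ⟨t, b⟩ f hf
      have h4 : IntermediateField.adjoin E S ≤ IntermediateField.adjoin E (Set.range z) := by
        apply IntermediateField.adjoin.mono
        rintro _ ⟨i, rfl⟩
        exact ⟨_, rfl⟩
      have h5 : z (Fin.last r) ∈ IntermediateField.adjoin E (Set.range z) :=
        IntermediateField.subset_adjoin _ _ ⟨_, rfl⟩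
      refine adj_induction (M'.A t) (zz (z (Fin.last r)) b)
        (p := fun f => f ∈ IntermediateField.adjoin E (Set.range z)) ?_ ?_ ?_ f hf
      · exact fun a ha => h4 (h1 t a ha)
      · exact fun a b ha hb => add_mem ha hb
      · intro a ha
        refine mul_mem ha ?_
        cases b
        · exact inv_mem h5
        · exact h5
    · intro b
      obtain ⟨γ, hγ⟩ := h2 b
      exact ⟨_, f1_prod M' hz0 hTr hγ⟩
    · intro i
      refine Fin.lastCases ?_ ?_ i
      · exact ⟨_, f1_self M' hz0 hTr⟩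
      · intro i
        obtain ⟨γ, hγ⟩ := h3 i
        exact ⟨_, f1_prod M' hz0 hTr hγ⟩

theorem main : S_tor.{u} := by
  intro k E K _ _ _ _ _ _ _ T I G _ _ M h Γ hF r z hz
  obtain ⟨T', I', _, _, M', h1, h2, h3⟩ := main_aux M h Γ hF r z hz
  choose γ hγ using h2
  choose δ hδ using h3
  refine ⟨T', I', inferInstance, inferInstance, M', Sum.elim γ δ, ?_⟩
  rintro (b | i) t
  · exact hγ b t
  · exact hδ i t

end Pool.Agent.W498.Tor
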